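import Mathlib

/-!
# Arithmetic of the number `α = ∑ 2^{-i!}`
-/

set_option autoImplicit false

open LiouvilleNumber

namespace Pool.Agent.V1170.SE

/-- the frequency -/
noncomputable def al : ℝ := liouvilleNumber 2

/-- `F k = (k+4)!` -/
def F (k : ℕ) : ℕ := (k + 4).factorial

theorem F_succ (k : ℕ) : F (k + 1) = (k + 5) * F k := Nat.factorial_succ _

theorem F_ge (k : ℕ) : 24 ≤ F k :=
  (show 24 = (4).factorial from rfl) ▸ Nat.factorial_le (by omega)

theorem F_mono {j k : ℕ} (h : j ≤ k) : F j ≤ F k := Nat.factorial_le (by omega)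

theorem F_lt {j k : ℕ} (h : j < k) : F j + (j + k) + 24 ≤ F k := by
  obtain ⟨k, rfl⟩ : ∃ k', k = k' + 1 := ⟨k - 1, by omega⟩
  rw [F_succ]
  have h1 := F_mono (show j ≤ k by omega)
  have h2 := F_ge k
  nlinarith

theorem F_gt {j k : ℕ} (h : k < j) : 1 + 2 * F j + (j + k) ≤ F (j + 1) := by
  rw [F_succ]
  have h2 := F_ge j
  nlinarith

theorem pw {A B c : ℕ} (h : A + 1 + c ≤ B) : (2 : ℝ) ^ A * (2 * (1 / 2 ^ B)) ≤ (1 / 2) ^ c := by
  rw [one_div_pow, ← mul_assoc, mul_one_div, div_le_div_iff₀ (by positivity) (by positivity), one_mul]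
  calc (2 : ℝ) ^ A * 2 * 2 ^ c = 2 ^ (A + 1 + c) := by ring
    _ ≤ 2 ^ B := pow_le_pow_right₀ (by norm_num) h

theorem rem_lt (k : ℕ) : remainder 2 k < 2 * (1 / 2 ^ (k + 1).factorial) := by
  have := remainder_lt' k (m := 2) (by norm_num)
  norm_num at this ⊢
  linarith

theorem mul_al {k N : ℕ} (h : 2 ^ k.factorial ∣ N) :
    ∃ z : ℤ, (N : ℝ) * al - z = N * remainder 2 k := by
  obtain ⟨p, hp⟩ := partialSum_eq_rat (m := 2) (by norm_num) k
  obtain ⟨c, rfl⟩ := h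
  refine ⟨c * p, ?_⟩
  have h1 := partialSum_add_remainder (m := 2) (by norm_num) k
  have h2 : partialSum 2 k = p / 2 ^ k.factorial := by
    have := hp; push_cast at this; exact this
  unfold al
  rw [← h1, h2]
  push_cast
  field_simp
  ring

/-- the frequencies of the modes -/
def Q (k : ℕ) : ℕ := 2 ^ F k

/-- the times of approximate return -/
def NN (k : ℕ) : ℕ := 2 ^ (F (k + 1) - 1 - F k)

theorem F_two (k : ℕ) : 2 * F k + 2 ≤ F (k + 1) := by
  rw [F_succ]; have := F_ge k; nlinarith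

theorem NN_Q (k : ℕ) : (NN k : ℝ) * Q k = 2 ^ (F (k + 1) - 1) := by
  have h := F_two k
  unfold NN Q
  push_cast
  rw [← pow_add]
  congr 1
  omega

theorem near0 (k : ℕ) : ∃ z : ℤ, |(NN k : ℝ) * al - z| ≤ (1 / 2) ^ F k := by
  have hF := F_two k
  obtain ⟨z, hz⟩ := mul_al (k := k + 4) (N := NN k) (by
    unfold NN; exact pow_dvd_pow 2 (show F k ≤ _ by omega))
  refine ⟨z, ?_⟩
  rw [hz]
  have h0 := remainder_pos (m := 2) (by norm_num) (k + 4)
  have h1 := rem_lt (k + 4)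
  have h1' : remainder 2 (k + 4) < 2 * (1 / 2 ^ F (k + 1)) := h1
  rw [abs_of_nonneg (by positivity)]
  have h2 : (NN k : ℝ) = 2 ^ (F (k + 1) - 1 - F k) := by unfold NN; push_cast; rfl
  rw [h2]
  refine (mul_le_mul_of_nonneg_left h1'.le (by positivity)).trans (pw ?_)
  omega

theorem nearQ (j : ℕ) : ∃ z : ℤ, |(Q j : ℝ) * al - z| ≤ 2 ^ F j * (2 * (1 / 2 ^ F (j + 1))) := by
  obtain ⟨z, hz⟩ := mul_al (k := j + 4) (N := Q j) (dvd_refl _)
  refine ⟨z, ?_⟩
  rw [hz]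
  have h0 := remainder_pos (m := 2) (by norm_num) (j + 4)
  have h1' : remainder 2 (j + 4) < 2 * (1 / 2 ^ F (j + 1)) := rem_lt (j + 4)
  rw [abs_of_nonneg (by positivity)]
  have h2 : (Q j : ℝ) = 2 ^ F j := by unfold Q; push_cast; rfl
  rw [h2]
  exact mul_le_mul_of_nonneg_left h1'.le (by positivity)

theorem near_ne {j k : ℕ} (h : j ≠ k) :
    ∃ z : ℤ, |(Q j : ℝ) * (NN k * al) - z| ≤ (1 / 2) ^ (j + k) := by
  rcases lt_or_gt_of_ne h with h | h
  · obtain ⟨z, hz⟩ := near0 k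
    refine ⟨Q j * z, ?_⟩
    have h2 : (Q j : ℝ) = 2 ^ F j := by unfold Q; push_cast; rfl
    have h3 : (Q j : ℝ) * (NN k * al) - ((Q j * z : ℤ) : ℝ) = Q j * (NN k * al - z) := by
      push_cast; ring
    rw [h3, abs_mul, abs_of_nonneg (by positivity : (0 : ℝ) ≤ Q j)]
    refine (mul_le_mul_of_nonneg_left hz (by positivity)).trans ?_
    rw [h2, one_div_pow, one_div_pow, mul_one_div, div_le_div_iff₀ (by positivity) (by positivity),
      one_mul, ← pow_add]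
    apply pow_le_pow_right₀ (by norm_num)
    have := F_lt h
    omega
  · obtain ⟨z, hz⟩ := nearQ j
    refine ⟨NN k * z, ?_⟩
    have h3 : (Q j : ℝ) * (NN k * al) - ((NN k * z : ℤ) : ℝ) = NN k * (Q j * al - z) := by
      push_cast; ring
    rw [h3, abs_mul, abs_of_nonneg (by positivity : (0 : ℝ) ≤ NN k)]
    refine (mul_le_mul_of_nonneg_left hz (by positivity)).trans ?_
    have h2 : (NN k : ℝ) = 2 ^ (F (k + 1) - 1 - F k) := by unfold NN; push_cast; rfl
    rw [h2, ← mul_assoc, ← pow_add]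
    apply pw
    have h4 := F_gt h
    have h5 := F_mono (show k + 1 ≤ j by omega)
    omega

theorem near_eq (k : ℕ) :
    ∃ z : ℤ, |(Q k : ℝ) * (NN k * al) - z - 1 / 2| ≤ (1 / 2) ^ k := by
  have hF := F_two k
  have hF' := F_two (k + 1)
  have hk : (k + 4) + 1 = (k + 1) + 4 := by ring
  obtain ⟨z, hz⟩ := mul_al (k := k + 4) (N := 2 ^ (F (k + 1) - 1)) (by
    exact pow_dvd_pow 2 (show F k ≤ _ by omega))
  refine ⟨z, ?_⟩
  have h1 : (Q k : ℝ) * (NN k * al) = (2 ^ (F (k + 1) - 1) : ℕ) * al := by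
    rw [← mul_assoc, mul_comm (Q k : ℝ), NN_Q]; push_cast; rfl
  have h2 : remainder 2 (k + 4) = 1 / 2 ^ F (k + 1) + remainder 2 (k + 5) := by
    have h3 := partialSum_add_remainder (m := 2) (by norm_num) (k + 4)
    have h4 := partialSum_add_remainder (m := 2) (by norm_num) (k + 5)
    have h5 : partialSum 2 (k + 5) = partialSum 2 (k + 4) + 1 / 2 ^ F (k + 1) :=
      partialSum_succ 2 (k + 4)
    linarith
  rw [h1, hz, h2]
  have h6 : ((2 ^ (F (k + 1) - 1) : ℕ) : ℝ) * (1 / 2 ^ F (k + 1)) = 1 / 2 := by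
    push_cast
    obtain ⟨m, hm⟩ : ∃ m, F (k + 1) = m + 1 := ⟨F (k + 1) - 1, by omega⟩
    rw [hm, Nat.add_sub_cancel, pow_succ]
    field_simp
  rw [mul_add, h6, add_sub_cancel_left]
  have h0 := remainder_pos (m := 2) (by norm_num) (k + 5)
  have h1' : remainder 2 (k + 5) < 2 * (1 / 2 ^ F (k + 2)) := rem_lt (k + 5)
  rw [abs_of_nonneg (by positivity)]
  refine (mul_le_mul_of_nonneg_left h1'.le (by positivity)).trans ?_
  push_cast
  apply pw
  have h7 : k + 5 ≤ F (k + 1) := Nat.self_le_factorial (k + 1 + 4)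
  have h8 : F (k + 1 + 1) = F (k + 2) := rfl
  omega

theorem small_mode {i j : ℕ} (h : i ≤ j) {δ : ℝ}
    (hδ : |δ| ≤ 2 ^ F j * (2 * (1 / 2 ^ F (j + 1)))) :
    (8 * (Q j : ℝ)) ^ i * (8 * |δ|) ≤ (1 / 2) ^ j := by
  have h2 : (Q j : ℝ) = 2 ^ F j := by unfold Q; push_cast; rfl
  have h3 : (1 : ℝ) ≤ 8 * Q j := by
    have : (1 : ℝ) ≤ Q j := by rw [h2]; exact one_le_pow₀ (by norm_num)
    linarith
  have h8 : (8 : ℝ) = 2 ^ 3 := by norm_num
  calc (8 * (Q j : ℝ)) ^ i * (8 * |δ|) ≤ (8 * (Q j : ℝ)) ^ j * (8 * (2 ^ F j * (2 * (1 / 2 ^ F (j + 1))))) := by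
        gcongr
    _ = 2 ^ ((3 + F j) * j + 3 + F j) * (2 * (1 / 2 ^ F (j + 1))) := by
        rw [h2, h8, mul_pow, ← pow_mul, ← pow_mul]; ring
    _ ≤ (1 / 2) ^ j := by
        apply pw
        rw [F_succ]
        have := F_ge j
        have h9 : j + 4 ≤ F j := Nat.self_le_factorial (j + 4)
        nlinarith

theorem al_irr : Irrational al := (liouville_liouvilleNumber (m := 2) le_rfl).irrational

theorem al_ord : addOrderOf ((al : ℝ) : AddCircle (1 : ℝ)) = 0 := by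
  rw [addOrderOf_eq_zero_iff']
  intro n hn h
  have h1 : (((n : ℝ) * al : ℝ) : AddCircle (1 : ℝ)) = 0 := by
    rw [← h, ← nsmul_eq_mul, AddCircle.coe_nsmul]
  rw [AddCircle.coe_eq_zero_iff] at h1
  obtain ⟨z, hz⟩ := h1
  have hn' : (n : ℝ) ≠ 0 := by exact_mod_cast hn.ne'
  apply al_irr
  refine ⟨z / n, ?_⟩
  push_cast
  rw [zsmul_eq_mul, mul_one] at hz
  rw [hz]
  field_simp

end Pool.Agent.V1170.SE
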