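import Mathlib
import Pool.Agent.V1170.SE.Num

/-!
# The cocycles and their Birkhoff sums
-/

set_option autoImplicit false

open Set Filter Topology Real

namespace Pool.Agent.V1170.SE

/-- the circle -/
abbrev TT : Type := AddCircle (1 : ℝ)

/-- `cos (2 π u)` -/
noncomputable def cc (u : TT) : ℝ := (fourier 1 u : ℂ).re

theorem cc_coe (t : ℝ) : cc (t : TT) = Real.cos (2 * π * t) := by
  unfold cc
  rw [fourier_coe_apply]
  have : (2 * (π : ℂ) * Complex.I * ((1 : ℤ) : ℂ) * (t : ℂ) / ((1 : ℝ) : ℂ)) =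
      ((2 * π * t : ℝ) : ℂ) * Complex.I := by
    push_cast; ring
  rw [this, Complex.exp_ofReal_mul_I_re]

theorem cc_continuous : Continuous cc :=
  Complex.continuous_re.comp (fourier 1).continuous

theorem cc_abs (u : TT) : |cc u| ≤ 1 := by
  induction u using QuotientAddGroup.induction_on with
  | H t =>
    rw [cc_coe]; exact Real.abs_cos_le_one _

theorem cos_lip (a b : ℝ) : |Real.cos a - Real.cos b| ≤ |a - b| := by
  have := Real.lipschitzWith_cos.dist_le_mul a b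
  simpa [Real.dist_eq] using this

theorem coe_sub_int (s : ℝ) (z : ℤ) : ((s - z : ℝ) : TT) = (s : TT) := by
  have h : ((z : ℝ) : TT) = 0 := (AddCircle.coe_eq_zero_iff (p := (1 : ℝ))).2 ⟨z, by simp⟩
  rw [AddCircle.coe_sub, h, sub_zero]

theorem cc_near {s δ : ℝ} {z : ℤ} (h : |s - z| ≤ δ) (u : TT) :
    |cc (u + (s : TT)) - cc u| ≤ 8 * δ := by
  induction u using QuotientAddGroup.induction_on with
  | H t =>
    change |cc ((t : TT) + (s : TT)) - cc (t : TT)| ≤ _
    rw [← coe_sub_int s z, ← AddCircle.coe_add, cc_coe, cc_coe]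
    refine (cos_lip _ _).trans ?_
    have h1 : 2 * π * (t + (s - z)) - 2 * π * t = 2 * π * (s - z) := by ring
    rw [h1, abs_mul, abs_of_pos (by positivity)]
    have := Real.pi_lt_four
    have h2 := abs_nonneg (s - z)
    nlinarith

theorem cc_half {s δ : ℝ} {z : ℤ} (h : |s - z - 1 / 2| ≤ δ) (u : TT) :
    |cc (u + (s : TT)) + cc u| ≤ 8 * δ := by
  induction u using QuotientAddGroup.induction_on with
  | H t =>
    change |cc ((t : TT) + (s : TT)) + cc (t : TT)| ≤ _
    rw [← coe_sub_int s z, ← AddCircle.coe_add, cc_coe, cc_coe]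
    have h3 : Real.cos (2 * π * (t + (s - z))) =
        - Real.cos (2 * π * (t + (s - z - 1 / 2))) := by
      have : 2 * π * (t + (s - z)) = 2 * π * (t + (s - z - 1 / 2)) + π := by ring
      rw [this, Real.cos_add_pi]
    rw [h3]
    have h4 : |-Real.cos (2 * π * (t + (s - z - 1 / 2))) + Real.cos (2 * π * t)| =
        |Real.cos (2 * π * (t + (s - z - 1 / 2))) - Real.cos (2 * π * t)| := by
      rw [← abs_neg]; congr 1; ring
    rw [h4]
    refine (cos_lip _ _).trans ?_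
    have h1 : 2 * π * (t + (s - z - 1 / 2)) - 2 * π * t = 2 * π * (s - z - 1 / 2) := by ring
    rw [h1, abs_mul, abs_of_pos (by positivity)]
    have := Real.pi_lt_four
    have h2 := abs_nonneg (s - z - 1 / 2)
    nlinarith

/-- the rotation number, on the circle -/
noncomputable def aa : TT := (al : TT)

theorem nsmul_add_coe (q n : ℕ) (u : TT) :
    q • (u + n • aa) = q • u + (((q : ℝ) * (n * al) : ℝ) : TT) := by
  rw [nsmul_add]
  congr 1
  unfold aa
  rw [← AddCircle.coe_nsmul, ← AddCircle.coe_nsmul, nsmul_eq_mul, nsmul_eq_mul]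

/-- the increments -/
noncomputable def dd (n j : ℕ) (u : TT) : ℝ := cc (Q j • (u + n • aa)) - cc (Q j • u)

theorem dd_continuous (n j : ℕ) : Continuous (dd n j) := by
  unfold dd
  exact (cc_continuous.comp (by fun_prop)).sub (cc_continuous.comp (by fun_prop))

theorem dd_le (n j : ℕ) (u : TT) : |dd n j u| ≤ n * (1 / 2) ^ j := by
  unfold dd
  rw [nsmul_add_coe]
  obtain ⟨z, hz⟩ := nearQ j
  have h0 : (0 : ℝ) ≤ 2 ^ F j * (2 * (1 / 2 ^ F (j + 1))) := by positivity
  have h1 := small_mode (i := 0) (j := j) (Nat.zero_le j)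
    (δ := 2 ^ F j * (2 * (1 / 2 ^ F (j + 1)))) (by rw [abs_of_nonneg h0])
  rw [pow_zero, one_mul, abs_of_nonneg h0] at h1
  have h2 : |(Q j : ℝ) * (n * al) - ((n * z : ℤ) : ℝ)| ≤
      n * (2 ^ F j * (2 * (1 / 2 ^ F (j + 1)))) := by
    have : (Q j : ℝ) * (n * al) - ((n * z : ℤ) : ℝ) = n * (Q j * al - z) := by push_cast; ring
    rw [this, abs_mul, abs_of_nonneg (by positivity : (0 : ℝ) ≤ n)]
    exact mul_le_mul_of_nonneg_left hz (by positivity)
  refine (cc_near h2 _).trans ?_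
  have hn : (0 : ℝ) ≤ n := by positivity
  nlinarith

theorem summ_half : Summable fun j : ℕ => (1 / 2 : ℝ) ^ j :=
  summable_geometric_of_lt_one (by norm_num) (by norm_num)

theorem term_le {y : ℕ → ℝ} (hy : ∀ j, |y j| ≤ 1) (n j : ℕ) (u : TT) :
    ‖y j * dd n j u‖ ≤ n * (1 / 2) ^ j := by
  rw [Real.norm_eq_abs, abs_mul]
  calc |y j| * |dd n j u| ≤ 1 * (n * (1 / 2) ^ j) :=
        mul_le_mul (hy j) (dd_le n j u) (abs_nonneg _) zero_le_one
    _ = _ := one_mul _

theorem term_summable {y : ℕ → ℝ} (hy : ∀ j, |y j| ≤ 1) (n : ℕ) (u : TT) :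
    Summable fun j => y j * dd n j u :=
  Summable.of_norm_bounded (summ_half.mul_left (n : ℝ)) (fun j => term_le hy n j u)

/-- the Birkhoff sums of the cocycle -/
noncomputable def SS (n : ℕ) (y : ℕ → ℝ) (u : TT) : ℝ := ∑' j, y j * dd n j u

theorem SS_continuous {y : ℕ → ℝ} (hy : ∀ j, |y j| ≤ 1) (n : ℕ) : Continuous (SS n y) :=
  continuous_tsum (fun j => continuous_const.mul (dd_continuous n j)) (summ_half.mul_left (n : ℝ))
    (fun j u => term_le hy n j u)

theorem SS_zero (y : ℕ → ℝ) (u : TT) : SS 0 y u = 0 := by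
  unfold SS dd
  simp

theorem SS_succ {y : ℕ → ℝ} (hy : ∀ j, |y j| ≤ 1) (n : ℕ) (u : TT) :
    SS (n + 1) y u = SS n y u + SS 1 y (u + n • aa) := by
  unfold SS
  rw [← (term_summable hy n u).tsum_add (term_summable hy 1 _)]
  congr 1
  funext j
  unfold dd
  rw [one_nsmul, add_assoc, ← succ_nsmul]
  ring

/-- the skew product -/
noncomputable def sk (y : ℕ → ℝ) (w : TT × TT) : TT × TT := (w.1 + aa, w.2 + (SS 1 y w.1 : TT))

theorem sk_iter {y : ℕ → ℝ} (hy : ∀ j, |y j| ≤ 1) (n : ℕ) (w : TT × TT) :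
    (sk y)^[n] w = (w.1 + n • aa, w.2 + (SS n y w.1 : TT)) := by
  induction n with
  | zero => simp [SS_zero]
  | succ n ih =>
    rw [Function.iterate_succ_apply', ih]
    unfold sk
    simp only
    rw [SS_succ hy n, succ_nsmul, AddCircle.coe_add, add_assoc, add_assoc]

/-! ### the approximation at the times `NN k` -/

theorem dd_ne {j k : ℕ} (h : j ≠ k) (u : TT) : |dd (NN k) j u| ≤ 8 * (1 / 2) ^ (j + k) := by
  unfold dd
  rw [nsmul_add_coe]
  obtain ⟨z, hz⟩ := near_ne h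
  exact cc_near hz _

theorem dd_eq (k : ℕ) (u : TT) : |dd (NN k) k u + 2 * cc (Q k • u)| ≤ 8 * (1 / 2) ^ k := by
  unfold dd
  rw [nsmul_add_coe]
  obtain ⟨z, hz⟩ := near_eq k
  have := cc_half hz (Q k • u)
  convert this using 2
  ring

theorem SS_near {y : ℕ → ℝ} (hy : ∀ j, |y j| ≤ 1) (k : ℕ) (u : TT) :
    |SS (NN k) y u + y k * (2 * cc (Q k • u))| ≤ 24 * (1 / 2) ^ k := by
  have h1 := (term_summable hy (NN k) u).tsum_eq_add_tsum_ite k
  have h2 : SS (NN k) y u = y k * dd (NN k) k u +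
      ∑' j, ite (j = k) 0 (y j * dd (NN k) j u) := h1
  have hs : Summable fun j : ℕ => 8 * (1 / 2 : ℝ) ^ k * (1 / 2) ^ j := summ_half.mul_left _
  have h3 : ∀ j, ‖ite (j = k) 0 (y j * dd (NN k) j u)‖ ≤ 8 * (1 / 2 : ℝ) ^ k * (1 / 2) ^ j := by
    intro j
    by_cases hj : j = k
    · rw [if_pos hj, norm_zero]; positivity
    · rw [if_neg hj, Real.norm_eq_abs, abs_mul]
      calc |y j| * |dd (NN k) j u| ≤ 1 * (8 * (1 / 2) ^ (j + k)) :=
            mul_le_mul (hy j) (dd_ne hj u) (abs_nonneg _) zero_le_one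
        _ = _ := by rw [pow_add]; ring
  have h4 : ‖∑' j, ite (j = k) 0 (y j * dd (NN k) j u)‖ ≤ ∑' j : ℕ, 8 * (1 / 2 : ℝ) ^ k * (1 / 2) ^ j :=
    tsum_of_norm_bounded hs.hasSum h3
  have h5 : ∑' j : ℕ, 8 * (1 / 2 : ℝ) ^ k * (1 / 2) ^ j = 16 * (1 / 2) ^ k := by
    rw [tsum_mul_left, tsum_geometric_two]; ring
  rw [h5, Real.norm_eq_abs] at h4
  have h6 := dd_eq k u
  have h7 : SS (NN k) y u + y k * (2 * cc (Q k • u)) =
      y k * (dd (NN k) k u + 2 * cc (Q k • u)) + ∑' j, ite (j = k) 0 (y j * dd (NN k) j u) := by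
    rw [h2]; ring
  rw [h7]
  refine (abs_add_le _ _).trans ?_
  rw [abs_mul]
  have h8 : |y k| * |dd (NN k) k u + 2 * cc (Q k • u)| ≤ 1 * (8 * (1 / 2) ^ k) :=
    mul_le_mul (hy k) h6 (abs_nonneg _) zero_le_one
  linarith

/-! ### the coboundaries -/

noncomputable def HH (z : ℕ → ℝ) (u : TT) : ℝ := ∑' j, z j * cc (Q j • u)

theorem HH_term {z : ℕ → ℝ} (j : ℕ) (u : TT) : ‖z j * cc (Q j • u)‖ ≤ |z j| := by
  rw [Real.norm_eq_abs, abs_mul]
  exact mul_le_of_le_one_right (abs_nonneg _) (cc_abs _)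

theorem HH_summable {z : ℕ → ℝ} (hz : Summable fun j => |z j|) (u : TT) :
    Summable fun j => z j * cc (Q j • u) :=
  Summable.of_norm_bounded hz (fun j => HH_term j u)

theorem HH_continuous {z : ℕ → ℝ} (hz : Summable fun j => |z j|) : Continuous (HH z) :=
  continuous_tsum (fun j => continuous_const.mul (cc_continuous.comp (by fun_prop))) hz
    (fun j u => HH_term j u)

theorem cob {y y' : ℕ → ℝ} (hy : ∀ j, |y j| ≤ 1) (hy' : ∀ j, |y' j| ≤ 1)
    (h : Summable fun j => |y' j - y j|) (u : TT) :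
    SS 1 y u + HH (fun j => y' j - y j) (u + aa) = HH (fun j => y' j - y j) u + SS 1 y' u := by
  unfold HH SS
  rw [← (term_summable hy 1 u).tsum_add (HH_summable h (u + aa)),
    ← (HH_summable h u).tsum_add (term_summable hy' 1 u)]
  congr 1
  funext j
  unfold dd
  rw [one_nsmul]
  ring

/-- the conjugacy -/
noncomputable def cj (z : ℕ → ℝ) (w : TT × TT) : TT × TT := (w.1, w.2 + (HH z w.1 : TT))

theorem cj_sk {y y' : ℕ → ℝ} (hy : ∀ j, |y j| ≤ 1) (hy' : ∀ j, |y' j| ≤ 1)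
    (h : Summable fun j => |y' j - y j|) (w : TT × TT) :
    cj (fun j => y' j - y j) (sk y w) = sk y' (cj (fun j => y' j - y j) w) := by
  have := cob hy hy' h w.1
  unfold cj sk
  simp only
  rw [add_assoc, ← AddCircle.coe_add, this, AddCircle.coe_add, add_assoc]

theorem cj_neg (z : ℕ → ℝ) (w : TT × TT) : cj (fun j => -z j) (cj z w) = w := by
  unfold cj HH
  simp only
  have : ∑' j, -z j * cc (Q j • w.1) = - ∑' j, z j * cc (Q j • w.1) := by
    rw [← tsum_neg]; congr 1; funext j; ring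
  rw [this, AddCircle.coe_neg, add_neg_cancel_right]

end Pool.Agent.V1170.SE
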