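import Mathlib
import Pool.Agent.V1170.SE.Cob

/-!
# Rigidity: the continuity lemma and the lower bound
-/

set_option autoImplicit false

open Set Filter Topology Real MeasureTheory

namespace Pool.Agent.V1170.SE

theorem rigid {X : Type*} [PseudoMetricSpace X] [CompactSpace X] [MeasurableSpace X] [BorelSpace X]
    {μ : Measure X} [IsFiniteMeasure μ] {g : X → ℂ} (hg : Integrable g μ) {ι : Type*}
    {l : Filter ι} {R : ι → X → X} (hR : ∀ i, MeasurePreserving (R i) μ μ)
    (hd : ∀ ε > 0, ∀ᶠ i in l, ∀ p, dist (R i p) p < ε) :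
    Tendsto (fun i => ∫ p, ‖g (R i p) - g p‖ ∂μ) l (𝓝 0) := by
  rw [Metric.tendsto_nhds]
  intro ε hε
  obtain ⟨g', hg', hgi⟩ := hg.exists_boundedContinuous_integral_sub_le (show 0 < ε / 4 by linarith)
  have huc : UniformContinuous g' := CompactSpace.uniformContinuous_of_continuous g'.continuous
  set M : ℝ := μ.real univ with hM
  have hM0 : 0 ≤ M := measureReal_nonneg
  have hη : 0 < ε / (4 * (M + 1)) := by positivity
  obtain ⟨δ, hδ, hδ'⟩ := Metric.uniformContinuous_iff.1 huc _ hη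
  filter_upwards [hd δ hδ] with i hi
  have hgR : Integrable (fun p => g (R i p)) μ := (hR i).integrable_comp_of_integrable hg
  have hgR' : Integrable (fun p => g' (R i p)) μ := (hR i).integrable_comp_of_integrable hgi
  have e1 : Integrable (fun p => ‖g (R i p) - g' (R i p)‖) μ := (hgR.sub hgR').norm
  have e2 : Integrable (fun p => ‖g' (R i p) - g' p‖) μ := (hgR'.sub hgi).norm
  have e3 : Integrable (fun p => ‖g' p - g p‖) μ := (hgi.sub hg).norm
  have h1 : ∫ p, ‖g (R i p) - g p‖ ∂μ ≤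
      ∫ p, (‖g (R i p) - g' (R i p)‖ + ‖g' (R i p) - g' p‖ + ‖g' p - g p‖) ∂μ := by
    apply integral_mono (hgR.sub hg).norm ((e1.add e2).add e3)
    intro p
    have : g (R i p) - g p = (g (R i p) - g' (R i p)) + (g' (R i p) - g' p) + (g' p - g p) := by ring
    show ‖g (R i p) - g p‖ ≤ _
    rw [this]
    exact norm_add₃_le
  have h2 : ∫ p, (‖g (R i p) - g' (R i p)‖ + ‖g' (R i p) - g' p‖ + ‖g' p - g p‖) ∂μ =
      ∫ p, ‖g (R i p) - g' (R i p)‖ ∂μ + ∫ p, ‖g' (R i p) - g' p‖ ∂μ + ∫ p, ‖g' p - g p‖ ∂μ := by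
    have h2a := integral_add (f := fun p => ‖g (R i p) - g' (R i p)‖ + ‖g' (R i p) - g' p‖)
      (g := fun p => ‖g' p - g p‖) (e1.add e2) e3
    have h2b := integral_add e1 e2
    linarith
  have h3 : ∫ p, ‖g (R i p) - g' (R i p)‖ ∂μ = ∫ p, ‖g p - g' p‖ ∂μ := by
    have h := integral_map (μ := μ) (hR i).aemeasurable (f := fun p => ‖g p - g' p‖)
      (by rw [(hR i).map_eq]; exact (hg.sub hgi).norm.aestronglyMeasurable)
    rw [(hR i).map_eq] at h
    exact h.symm
  have h4 : ∫ p, ‖g' (R i p) - g' p‖ ∂μ ≤ ε / (4 * (M + 1)) * M := by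
    have : ∫ p, ‖g' (R i p) - g' p‖ ∂μ ≤ ∫ _, ε / (4 * (M + 1)) ∂μ := by
      apply integral_mono e2 (integrable_const _)
      intro p
      have := hδ' (hi p)
      rw [dist_eq_norm] at this
      exact this.le
    rwa [integral_const, smul_eq_mul, mul_comm] at this
  have h5 : ∫ p, ‖g' p - g p‖ ∂μ = ∫ p, ‖g p - g' p‖ ∂μ := by simp_rw [norm_sub_rev]
  have h6 : ε / (4 * (M + 1)) * M ≤ ε / 4 := by
    rw [div_mul_eq_mul_div, div_le_div_iff₀ (by positivity) (by norm_num)]
    nlinarith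
  have h7 : 0 ≤ ∫ p, ‖g (R i p) - g p‖ ∂μ := integral_nonneg fun p => norm_nonneg _
  rw [Real.dist_eq, sub_zero, abs_of_nonneg h7]
  rw [h5, h3] at h2
  linarith

/-! ### the exponentials -/

/-- `|e(m a) - 1|` for real `a` -/
noncomputable def ex (m : ℤ) (a : ℝ) : ℝ := ‖(fourier m ((a : ℝ) : TT) : ℂ) - 1‖

theorem fourier_coe (m : ℤ) (a : ℝ) :
    (fourier m ((a : ℝ) : TT) : ℂ) = Complex.exp ((2 * π * m * a : ℝ) * Complex.I) := by
  rw [fourier_coe_apply]
  congr 1
  push_cast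
  ring

theorem norm_exp_sub (s t : ℝ) :
    ‖Complex.exp ((s : ℝ) * Complex.I) - Complex.exp ((t : ℝ) * Complex.I)‖ ≤ |s - t| := by
  have h1 : Complex.exp ((s : ℝ) * Complex.I) - Complex.exp ((t : ℝ) * Complex.I) =
      Complex.exp ((t : ℝ) * Complex.I) * (Complex.exp (Complex.I * ((s - t : ℝ) : ℂ)) - 1) := by
    rw [mul_sub, ← Complex.exp_add, mul_one]
    congr 2
    push_cast; ring
  rw [h1, norm_mul, Complex.norm_exp_ofReal_mul_I, one_mul]
  exact Real.norm_exp_I_mul_ofReal_sub_one_le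

theorem ex_lip (m : ℤ) (a b : ℝ) : |ex m a - ex m b| ≤ 8 * |(m : ℝ)| * |a - b| := by
  unfold ex
  refine (abs_norm_sub_norm_le _ _).trans ?_
  rw [sub_sub_sub_cancel_right, fourier_coe, fourier_coe]
  refine (norm_exp_sub _ _).trans ?_
  have : 2 * π * m * a - 2 * π * m * b = (2 * π) * m * (a - b) := by ring
  rw [this, abs_mul, abs_mul, abs_of_pos (by positivity : 0 < 2 * π)]
  have := Real.pi_lt_four
  gcongr
  linarith

theorem ex_continuous (m : ℤ) : Continuous (ex m) := by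
  unfold ex
  have : Continuous fun a : ℝ => (fourier m ((a : ℝ) : TT) : ℂ) := by
    simp_rw [fourier_coe]; fun_prop
  fun_prop

theorem ex_nonneg (m : ℤ) (a : ℝ) : 0 ≤ ex m a := norm_nonneg _

theorem ex_le (m : ℤ) (a : ℝ) : ex m a ≤ 2 := by
  unfold ex
  refine (norm_sub_le _ _).trans ?_
  rw [fourier_coe, Complex.norm_exp_ofReal_mul_I, norm_one]
  norm_num

theorem ex_neg (m : ℤ) (a : ℝ) : ex m (-a) = ex m a := by
  unfold ex
  rw [fourier_coe, fourier_coe]
  have : (Complex.exp ((2 * π * m * (-a) : ℝ) * Complex.I) - 1) =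
      (starRingEnd ℂ) (Complex.exp ((2 * π * m * a : ℝ) * Complex.I) - 1) := by
    rw [map_sub, ← Complex.exp_conj, map_mul, Complex.conj_ofReal, Complex.conj_I, map_one]
    congr 2
    push_cast; ring
  rw [this, Complex.norm_conj]

noncomputable def kap (m : ℤ) : ℝ := ∫ u : TT, ex m (2 * cc u)

theorem exists_ex_pos {m : ℤ} (hm : m ≠ 0) : ∃ u : TT, 0 < ex m (2 * cc u) := by
  have hm' : (m : ℝ) ≠ 0 := by exact_mod_cast hm
  have hm1 : (1 : ℝ) ≤ |(m : ℝ)| := by exact_mod_cast Int.one_le_abs hm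
  -- a point where `2 m cos (2πt) = 1/2`
  set c : ℝ := 1 / (4 * m) with hc
  have hc1 : -1 ≤ c ∧ c ≤ 1 := by
    rw [← abs_le, hc, abs_div, abs_mul, abs_one, abs_of_pos (by norm_num : (0 : ℝ) < 4)]
    rw [div_le_one (by positivity)]
    linarith
  refine ⟨((Real.arccos c / (2 * π) : ℝ) : TT), ?_⟩
  rw [cc_coe, mul_div_cancel₀ _ (by positivity), Real.cos_arccos hc1.1 hc1.2]
  unfold ex
  rw [fourier_coe]
  have h1 : 2 * π * m * (2 * c) = π := by rw [hc]; field_simp; ring
  rw [h1, Complex.exp_pi_mul_I]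
  norm_num

theorem kap_pos {m : ℤ} (hm : m ≠ 0) : 0 < kap m := by
  obtain ⟨u, hu⟩ := exists_ex_pos hm
  have hc : Continuous fun u : TT => ex m (2 * cc u) :=
    (ex_continuous m).comp (continuous_const.mul cc_continuous)
  exact hc.integral_pos_of_hasCompactSupport_nonneg_nonzero
    (HasCompactSupport.of_compactSpace _) (fun u => ex_nonneg _ _) hu.ne'

theorem kap_eq (m : ℤ) {q : ℕ} (hq : 1 < q) : ∫ u : TT, ex m (2 * cc (q • u)) = kap m := by
  have h := (AddCircle.ergodic_nsmul (T := 1) hq).toMeasurePreserving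
  have hc : Continuous fun u : TT => ex m (2 * cc u) :=
    (ex_continuous m).comp (continuous_const.mul cc_continuous)
  have h2 := integral_map (μ := (volume : Measure TT)) h.aemeasurable
    (f := fun u => ex m (2 * cc u)) (by rw [h.map_eq]; exact hc.aestronglyMeasurable)
  rw [h.map_eq] at h2
  exact h2.symm

theorem Q_gt (k : ℕ) : 1 < Q k := Nat.one_lt_two_pow (by have := F_ge k; omega)

/-- the size of the exponential of the Birkhoff sum -/
noncomputable def JJ (m : ℤ) (y : ℕ → ℝ) (n : ℕ) : ℝ := ∫ u : TT, ex m (SS n y u)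

theorem JJ_low {y : ℕ → ℝ} (hy : ∀ j, |y j| ≤ 1) (m : ℤ) {k : ℕ} (hk : y k = 1) :
    kap m ≤ JJ m y (NN k) + 8 * |(m : ℝ)| * 24 * (1 / 2) ^ k := by
  rw [← kap_eq m (Q_gt k)]
  unfold JJ
  have hc : Continuous fun u : TT => ex m (SS (NN k) y u) :=
    (ex_continuous m).comp (SS_continuous hy _)
  have hc2 : Continuous fun u : TT => ex m (2 * cc (Q k • u)) :=
    (ex_continuous m).comp (continuous_const.mul (cc_continuous.comp (by fun_prop)))
  have hi : ∀ {f : TT → ℝ}, Continuous f → Integrable f volume := fun {f} hf =>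
    hf.integrable_of_hasCompactSupport (HasCompactSupport.of_compactSpace _)
  have h1 : ∫ u : TT, ex m (2 * cc (Q k • u)) ≤
      ∫ u : TT, (ex m (SS (NN k) y u) + 8 * |(m : ℝ)| * 24 * (1 / 2) ^ k) := by
    apply integral_mono (hi hc2) (hi (hc.add continuous_const))
    intro u
    have h2 := SS_near hy k u
    rw [hk, one_mul] at h2
    have h3 := ex_lip m (-SS (NN k) y u) (2 * cc (Q k • u))
    rw [ex_neg] at h3
    have h4 : |-SS (NN k) y u - 2 * cc (Q k • u)| = |SS (NN k) y u + 2 * cc (Q k • u)| := by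
      rw [← abs_neg]; congr 1; ring
    rw [h4] at h3
    have h5 := (abs_le.1 h3).1
    have h6 : 8 * |(m : ℝ)| * |SS (NN k) y u + 2 * cc (Q k • u)| ≤
        8 * |(m : ℝ)| * (24 * (1 / 2) ^ k) := by gcongr
    show ex m (2 * cc (Q k • u)) ≤ ex m (SS (NN k) y u) + 8 * |(m : ℝ)| * 24 * (1 / 2) ^ k
    linarith
  rw [integral_add (hi hc) (integrable_const _), integral_const] at h1
  have h7 : (volume : Measure TT).real univ = 1 := by
    rw [Measure.real, AddCircle.measure_univ]; simp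
  rw [h7, one_smul] at h1
  exact h1

end Pool.Agent.V1170.SE
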