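import Mathlib
import Pool.Agent.V1170.SE.Rg

/-!
# Ergodicity and non-isomorphism of the skew products
-/

set_option autoImplicit false

open Set Filter Topology Real MeasureTheory

namespace Pool.Agent.V1170.SE

variable {y : ℕ → ℝ}

theorem SS_meas (hy : ∀ j, |y j| ≤ 1) (n : ℕ) : Continuous fun u : TT => ((SS n y u : ℝ) : TT) :=
  (AddCircle.continuous_mk' 1).comp (SS_continuous hy n)

theorem sk_continuous (hy : ∀ j, |y j| ≤ 1) : Continuous (sk y) := by
  unfold sk
  exact (continuous_fst.add continuous_const).prodMk
    (continuous_snd.add ((SS_meas hy 1).comp continuous_fst))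

theorem vert_mp {f : TT → TT} (hf : Continuous f) (c : TT) :
    MeasurePreserving (fun w : TT × TT => (w.1 + c, w.2 + f w.1)) volume volume := by
  have h1 : MeasurePreserving (fun u : TT => u + c) volume volume :=
    measurePreserving_add_right volume c
  exact h1.skew_product (g := fun u v => v + f u)
    (continuous_snd.add (hf.comp continuous_fst)).measurable
    (ae_of_all _ fun u => (measurePreserving_add_right volume _).map_eq)

theorem sk_mp (hy : ∀ j, |y j| ≤ 1) : MeasurePreserving (sk y) volume volume :=
  vert_mp (SS_meas hy 1) aa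

theorem norm_NN (k : ℕ) : ‖NN k • aa‖ ≤ (1 / 2) ^ k := by
  obtain ⟨z, hz⟩ := near0 k
  have h1 : NN k • aa = (((NN k : ℝ) * al - z : ℝ) : TT) := by
    rw [coe_sub_int]
    unfold aa
    rw [← AddCircle.coe_nsmul, nsmul_eq_mul]
  rw [h1]
  refine (QuotientAddGroup.norm_mk_le_norm).trans ?_
  rw [Real.norm_eq_abs]
  refine hz.trans (pow_le_pow_of_le_one (by norm_num) (by norm_num) ?_)
  exact (Nat.self_le_factorial (k + 4)).trans' (by omega)

theorem half_tendsto : Tendsto (fun k : ℕ => (1 / 2 : ℝ) ^ k) atTop (𝓝 0) :=
  tendsto_pow_atTop_nhds_zero_of_lt_one (by norm_num) (by norm_num)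

theorem norm_fourier (m : ℤ) (u : TT) : ‖(fourier m u : ℂ)‖ = 1 := by
  rw [fourier_apply]; exact Circle.norm_coe _

theorem fourier_add_pt (m : ℤ) (u v : TT) :
    (fourier m (u + v) : ℂ) = fourier m u * fourier m v := by
  simp only [fourier_apply, smul_add, AddCircle.toCircle_add, Circle.coe_mul]

theorem haar_eq : (volume : Measure TT) = AddCircle.haarAddCircle := by
  rw [AddCircle.volume_eq_smul_haarAddCircle, ENNReal.ofReal_one, one_smul]

theorem integral_fourier {m : ℤ} (hm : m ≠ 0) : ∫ v : TT, (fourier m v : ℂ) = 0 := by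
  have h1 := integral_add_right_eq_self (μ := (volume : Measure TT))
    (fun v : TT => (fourier m v : ℂ)) (((1 : ℝ) / 2 / m : ℝ) : TT)
  simp_rw [fourier_add_half_inv_index hm (by norm_num : (0 : ℝ) < 1)] at h1
  rw [integral_neg] at h1
  linear_combination -(1 / 2 : ℂ) * h1

theorem ae_const {f : TT → ℂ} (hf : MemLp f 2 volume)
    (h : ∀ m : ℤ, m ≠ 0 → ∫ v, f v * fourier m v = 0) :
    ∀ᵐ v, f v = ∫ v, f v := by
  set c := ∫ v, f v with hc
  have hfi : Integrable f volume := hf.integrable (by norm_num)
  have hd : MemLp (fun v => f v - c) 2 (AddCircle.haarAddCircle (T := (1 : ℝ))) := by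
    rw [← haar_eq]; exact hf.sub (memLp_const c)
  have hco : ∀ n : ℤ, fourierCoeff (fun v => f v - c) n = 0 := by
    intro n
    rw [fourierCoeff, ← haar_eq]
    have h1 : ∀ v : TT, (fourier (-n) v : ℂ) • (f v - c) =
        f v * fourier (-n) v - c * fourier (-n) v := by
      intro v; rw [smul_eq_mul]; ring
    simp_rw [h1]
    have hfc : Continuous fun v : TT => (fourier (-n) v : ℂ) := (fourier (-n)).continuous
    have hi1 : Integrable (fun v => f v * (fourier (-n) v : ℂ)) volume := by
      refine hfi.mul_bdd (c := 1) hfc.aestronglyMeasurable (ae_of_all _ fun v => ?_)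
      rw [norm_fourier]
    have hi2 : Integrable (fun v : TT => c * (fourier (-n) v : ℂ)) volume :=
      (continuous_const.mul hfc).integrable_of_hasCompactSupport (HasCompactSupport.of_compactSpace _)
    rw [integral_sub hi1 hi2, integral_const_mul]
    by_cases hn : n = 0
    · subst hn
      simp only [neg_zero, fourier_zero, mul_one]
      rw [integral_const]
      have h7 : (volume : Measure TT).real univ = 1 := by
        rw [Measure.real, AddCircle.measure_univ]; simp
      rw [h7, one_smul, mul_one, ← hc, sub_self]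
    · rw [h (-n) (neg_ne_zero.2 hn), integral_fourier (neg_ne_zero.2 hn), mul_zero, sub_zero]
  have h2 := hasSum_fourier_series_L2 (hd.toLp _)
  have h3 : ∀ n : ℤ, fourierCoeff (hd.toLp (fun v => f v - c)) n = 0 := by
    intro n
    rw [← hco n]
    unfold fourierCoeff
    apply integral_congr_ae
    filter_upwards [hd.coeFn_toLp] with v hv
    rw [hv]
  simp_rw [h3, zero_smul] at h2
  have h4 := h2.unique hasSum_zero
  have h5 : (hd.toLp (fun v => f v - c) : TT → ℂ) =ᵐ[AddCircle.haarAddCircle] 0 := by
    rw [h4]; exact Lp.coeFn_zero _ _ _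
  have h6 := hd.coeFn_toLp.symm.trans h5
  rw [haar_eq]
  filter_upwards [h6] with v hv
  exact sub_eq_zero.1 hv

theorem erg_rot : Ergodic (fun u : TT => u + aa) volume := by
  have := (AddCircle.ergodic_add_left (a := aa)).2 al_ord
  simpa only [add_comm] using this

theorem sk_ergodic (hy : ∀ j, |y j| ≤ 1) (hf : ∃ᶠ k in atTop, y k = 1) :
    Ergodic (sk y) volume := by
  refine ⟨sk_mp hy, ⟨?_⟩⟩
  intro s hs hinv
  let g : TT × TT → ℂ := s.indicator (fun _ => 1)
  have hgm : Measurable g := measurable_const.indicator hs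
  have hg1 : ∀ w, ‖g w‖ ≤ 1 := by
    intro w
    simp only [g]
    by_cases hw : w ∈ s
    · rw [indicator_of_mem hw]; simp
    · rw [indicator_of_notMem hw]; simp
  have hinv1 : ∀ w, sk y w ∈ s ↔ w ∈ s := by
    intro w
    rw [← mem_preimage, hinv]
  have hinvn : ∀ n w, (sk y)^[n] w ∈ s ↔ w ∈ s := by
    intro n
    induction n with
    | zero => intro w; rfl
    | succ n ih => intro w; rw [Function.iterate_succ_apply', hinv1, ih]
  have hginv : ∀ n w, g ((sk y)^[n] w) = g w := by
    intro n w
    simp only [g, indicator]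
    congr 1
    exact propext (hinvn n w)
  let h : ℤ → TT → ℂ := fun m u => ∫ v, g (u, v) * fourier m v
  have hkey : ∀ m n u, h m (u + n • aa) = fourier m ((SS n y u : ℝ) : TT) * h m u := by
    intro m n u
    simp only [h]
    rw [← integral_add_right_eq_self (μ := (volume : Measure TT))
      (fun v : TT => g (u + n • aa, v) * (fourier m v : ℂ)) ((SS n y u : ℝ) : TT),
      ← integral_const_mul]
    congr 1
    funext v
    have h1 := hginv n (u, v)
    rw [sk_iter hy] at h1
    simp only at h1
    rw [h1, fourier_add_pt]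
    ring
  have hhm : ∀ m, StronglyMeasurable (h m) := by
    intro m
    have : StronglyMeasurable fun w : TT × TT => g w * (fourier m w.2 : ℂ) :=
      (hgm.mul ((fourier m).continuous.comp continuous_snd).measurable).stronglyMeasurable
    exact this.integral_prod_right'
  have hvol : (volume : Measure TT).real univ = 1 := by
    rw [Measure.real, AddCircle.measure_univ]; simp
  have hb : ∀ m u, ‖h m u‖ ≤ 1 := by
    intro m u
    have := norm_integral_le_of_norm_le_const (μ := (volume : Measure TT)) (C := 1)
      (f := fun v => g (u, v) * (fourier m v : ℂ)) (ae_of_all _ fun v => by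
        rw [norm_mul, norm_fourier, mul_one]; exact hg1 _)
    rw [hvol, mul_one] at this
    exact this
  have hi : ∀ m, Integrable (h m) volume := fun m =>
    Integrable.of_bound (hhm m).aestronglyMeasurable 1 (ae_of_all _ (hb m))
  -- `h m = 0` for `m ≠ 0`
  have hz : ∀ m : ℤ, m ≠ 0 → ∀ᵐ u, h m u = 0 := by
    intro m hm
    have hn : (fun u => ‖h m u‖) ∘ (fun u => u + aa) =ᵐ[volume] fun u => ‖h m u‖ := by
      refine ae_of_all _ fun u => ?_
      show ‖h m (u + aa)‖ = ‖h m u‖
      have := hkey m 1 u
      rw [one_nsmul] at this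
      rw [this, norm_mul, norm_fourier, one_mul]
    obtain ⟨c, hc⟩ := erg_rot.quasiErgodic.ae_eq_const_of_ae_eq_comp_ae
      (hhm m).norm.aestronglyMeasurable hn
    have hr := rigid (hi m) (l := atTop) (R := fun (k : ℕ) (u : TT) => u + NN k • aa)
      (fun k => measurePreserving_add_right volume _) (by
        intro ε hε
        filter_upwards [(half_tendsto.eventually (gt_mem_nhds hε))] with k hk p
        rw [dist_eq_norm, add_sub_cancel_left]
        exact (norm_NN k).trans_lt hk)
    have h1 : ∀ k : ℕ, ∫ u, ‖h m (u + NN k • aa) - h m u‖ = JJ m y (NN k) * c := by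
      intro k
      unfold JJ
      rw [← integral_mul_const]
      apply integral_congr_ae
      filter_upwards [hc] with u hu
      rw [hkey]
      have : (fourier m ((SS (NN k) y u : ℝ) : TT) : ℂ) * h m u - h m u =
          ((fourier m ((SS (NN k) y u : ℝ) : TT) : ℂ) - 1) * h m u := by ring
      rw [this, norm_mul]
      have hu' : ‖h m u‖ = c := hu
      rw [hu']
      rfl
    simp_rw [h1] at hr
    have hc0 : 0 ≤ c := by
      obtain ⟨u, hu⟩ := hc.exists
      have hu' : ‖h m u‖ = c := hu
      rw [← hu']; exact norm_nonneg _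
    have h2 : Tendsto (fun k : ℕ => JJ m y (NN k) * c + 8 * |(m : ℝ)| * 24 * (1 / 2) ^ k * c) atTop
        (𝓝 0) := by
      have := hr.add ((half_tendsto.const_mul (8 * |(m : ℝ)| * 24)).mul_const c)
      simpa using this
    have h3 : kap m * c ≤ 0 := by
      apply ge_of_tendsto_of_frequently h2
      refine hf.mono fun k hk => ?_
      rw [← add_mul]
      exact mul_le_mul_of_nonneg_right (JJ_low hy m hk) hc0
    have h4 : c = 0 := by
      have := kap_pos hm
      nlinarith
    filter_upwards [hc] with u hu
    have hu' : ‖h m u‖ = c := hu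
    rw [h4] at hu'
    exact norm_eq_zero.1 hu'
  -- `h 0` is constant
  obtain ⟨c, hc⟩ := erg_rot.quasiErgodic.ae_eq_const_of_ae_eq_comp_ae (g := h 0)
    (hhm 0).aestronglyMeasurable (ae_of_all _ fun u => by
      show h 0 (u + aa) = h 0 u
      have := hkey 0 1 u
      rw [one_nsmul, fourier_zero, one_mul] at this
      exact this)
  have hall : ∀ᵐ u : TT, ∀ m : ℤ, m ≠ 0 → h m u = 0 := by
    rw [ae_all_iff]
    intro m
    by_cases hm : m = 0
    · exact ae_of_all _ fun u hm' => absurd hm hm'
    · filter_upwards [hz m hm] with u hu _ using hu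
  have hae : ∀ᵐ w : TT × TT, w ∈ g ⁻¹' {c} := by
    rw [Measure.volume_eq_prod, Measure.ae_prod_mem_iff_ae_ae_mem (hgm (measurableSet_singleton c))]
    filter_upwards [hc, hall] with u hu hu2
    have h1 : MemLp (fun v => g (u, v)) 2 volume :=
      MemLp.of_bound (hgm.comp measurable_prodMk_left).aestronglyMeasurable 1
        (ae_of_all _ fun v => hg1 _)
    have h2 := ae_const h1 (fun m hm => hu2 m hm)
    have h3 : ∫ v, g (u, v) = c := by
      have : h 0 u = c := hu
      rw [← this]
      simp only [h, fourier_zero, mul_one]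
    filter_upwards [h2] with v hv
    rw [h3] at hv
    exact hv
  rw [eventuallyConst_set']
  by_cases h1 : c = 1
  · right
    filter_upwards [hae] with w hw
    have hw' : g w = 1 := by rw [← h1]; exact hw
    by_contra hcon
    have : w ∉ s := fun hws => hcon (propext ⟨fun _ => trivial, fun _ => hws⟩)
    rw [show g w = 0 from indicator_of_notMem this _] at hw'
    exact zero_ne_one hw'
  · left
    filter_upwards [hae] with w hw
    by_contra hcon
    have : w ∈ s := by
      by_contra hws
      exact hcon (propext ⟨fun h => hws h, fun h => h.elim⟩)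
    have hw' : g w = c := hw
    rw [show g w = 1 from indicator_of_mem this _] at hw'
    exact h1 hw'.symm

end Pool.Agent.V1170.SE
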