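import Mathlib
import Pool.Agent.V1170.SE.Er

/-!
# Non-isomorphism of the skew products
-/

set_option autoImplicit false

open Set Filter Topology Real MeasureTheory

namespace Pool.Agent.V1170.SE

theorem not_iso {y y' : ℕ → ℝ} (hy : ∀ j, |y j| ≤ 1) (hy' : ∀ j, |y' j| ≤ 1)
    (hK : ∃ᶠ k in atTop, y k = 0 ∧ y' k = 1) {φ : TT × TT → TT × TT}
    (hφ : MeasurePreserving φ volume volume) (hc : ∀ᵐ w, φ (sk y w) = sk y' (φ w)) : False := by
  -- the iterates
  have hit : ∀ n : ℕ, ∀ᵐ w, φ ((sk y)^[n] w) = (sk y')^[n] (φ w) := by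
    intro n
    induction n with
    | zero => exact ae_of_all _ fun w => rfl
    | succ n ih =>
      have h1 := ((sk_mp hy).iterate n).quasiMeasurePreserving.ae hc
      filter_upwards [ih, h1] with w hw1 hw2
      rw [Function.iterate_succ_apply', Function.iterate_succ_apply', ← hw1]
      exact hw2
  let e : TT × TT → ℂ := fun w => fourier 1 w.2
  have hec : Continuous e := (fourier 1).continuous.comp continuous_snd
  have hge : Integrable (fun w => e (φ w)) volume := by
    refine Integrable.of_bound (hec.measurable.comp hφ.measurable).aestronglyMeasurable 1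
      (ae_of_all _ fun w => ?_)
    simp only [e]
    rw [norm_fourier]
  let S : Set ℕ := {k | y k = 0 ∧ y' k = 1}
  have hSf : (atTop ⊓ 𝓟 S).NeBot := by
    rw [← frequently_mem_iff_neBot]
    exact hK
  have hr := rigid hge (l := atTop ⊓ 𝓟 S) (R := fun (k : ℕ) => (sk y)^[NN k])
    (fun k => (sk_mp hy).iterate _) (by
      intro ε hε
      have h24 : Tendsto (fun k : ℕ => 24 * (1 / 2 : ℝ) ^ k) atTop (𝓝 0) := by
        simpa using half_tendsto.const_mul 24
      rw [eventually_inf_principal]
      filter_upwards [h24.eventually (gt_mem_nhds hε)] with k hk hkS p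
      rw [sk_iter hy, dist_eq_norm]
      have h1 : ((p.1 + NN k • aa, p.2 + ((SS (NN k) y p.1 : ℝ) : TT)) - p : TT × TT) =
          (NN k • aa, ((SS (NN k) y p.1 : ℝ) : TT)) := by
        ext <;> simp
      rw [h1]
      refine lt_of_le_of_lt ?_ hk
      rw [Prod.norm_mk]
      apply max_le
      · refine (norm_NN k).trans ?_
        have : (0 : ℝ) ≤ (1 / 2) ^ k := by positivity
        linarith
      · refine (QuotientAddGroup.norm_mk_le_norm).trans ?_
        have h2 := SS_near hy k p.1
        rw [hkS.1, zero_mul, add_zero] at h2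
        exact h2)
  have h1 : ∀ n : ℕ, ∫ w, ‖e (φ ((sk y)^[n] w)) - e (φ w)‖ = JJ 1 y' n := by
    intro n
    have h2 : ∫ w, ‖e (φ ((sk y)^[n] w)) - e (φ w)‖ =
        ∫ w, (fun w' => ‖e ((sk y')^[n] w') - e w'‖) (φ w) := by
      apply integral_congr_ae
      filter_upwards [hit n] with w hw
      rw [hw]
    have hcn : Continuous fun w' => ‖e ((sk y')^[n] w') - e w'‖ := by
      have := (sk_continuous hy').iterate n
      fun_prop
    have h3 := integral_map (μ := (volume : Measure (TT × TT))) hφ.aemeasurable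
      (f := fun w' => ‖e ((sk y')^[n] w') - e w'‖) hcn.aestronglyMeasurable
    rw [hφ.map_eq] at h3
    rw [h2, ← h3]
    have h4 : ∀ w' : TT × TT, ‖e ((sk y')^[n] w') - e w'‖ = ex 1 (SS n y' w'.1) := by
      intro w'
      rw [sk_iter hy']
      simp only [e]
      rw [fourier_add_pt]
      have : (fourier 1 w'.2 : ℂ) * fourier 1 ((SS n y' w'.1 : ℝ) : TT) - fourier 1 w'.2 =
          fourier 1 w'.2 * ((fourier 1 ((SS n y' w'.1 : ℝ) : TT) : ℂ) - 1) := by ring
      rw [this, norm_mul, norm_fourier, one_mul]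
      rfl
    simp_rw [h4]
    have hcc : Continuous fun u : TT => ex 1 (SS n y' u) :=
      (ex_continuous 1).comp (SS_continuous hy' _)
    have hI : Integrable (fun w' : TT × TT => ex 1 (SS n y' w'.1)) (volume.prod volume) :=
      (hcc.comp continuous_fst).integrable_of_hasCompactSupport (HasCompactSupport.of_compactSpace _)
    rw [Measure.volume_eq_prod, integral_prod _ hI]
    have hvol : (volume : Measure TT).real univ = 1 := by
      rw [Measure.real, AddCircle.measure_univ]; simp
    simp only [integral_const, hvol, one_smul]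
    rfl
  simp_rw [h1] at hr
  have h5 : Tendsto (fun k : ℕ => JJ 1 y' (NN k) + 8 * |((1 : ℤ) : ℝ)| * 24 * (1 / 2) ^ k)
      (atTop ⊓ 𝓟 S) (𝓝 0) := by
    have := hr.add ((half_tendsto.const_mul (8 * |((1 : ℤ) : ℝ)| * 24)).mono_left
      (inf_le_left : atTop ⊓ 𝓟 S ≤ atTop))
    simpa using this
  have h6 : kap 1 ≤ 0 := by
    apply ge_of_tendsto h5
    rw [eventually_inf_principal]
    exact Eventually.of_forall fun k hk => JJ_low hy' 1 hk.2
  have := kap_pos (m := 1) one_ne_zero
  linarith

end Pool.Agent.V1170.SE
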