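import Mathlib
import Pool.Agent.V1170.SE.Cob

/-!
# Smoothness of the cocycles
-/

set_option autoImplicit false

open Set Filter Topology Real
open scoped ContDiff

namespace Pool.Agent.V1170.SE

/-- a mode, as a function on the line -/
noncomputable def md (c a b b' : ℝ) (t : ℝ) : ℝ := c * (Real.cos (a * t + b) - Real.cos (a * t + b'))

theorem md_contDiff (c a b b' : ℝ) : ContDiff ℝ ∞ (md c a b b') := by
  unfold md; fun_prop

theorem md_deriv (c a b b' : ℝ) : deriv (md c a b b') = md (c * a) a (b + π / 2) (b' + π / 2) := by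
  funext t
  unfold md
  have h : ∀ s : ℝ, HasDerivAt (fun t : ℝ => Real.cos (a * t + s)) (Real.cos (a * t + (s + π / 2)) * a) t := by
    intro s
    have h1 : HasDerivAt (fun t : ℝ => a * t + s) a t := by
      simpa using ((hasDerivAt_id t).const_mul a).add_const s
    have h2 := h1.cos
    have h3 : Real.cos (a * t + (s + π / 2)) = - Real.sin (a * t + s) := by
      rw [← add_assoc, Real.cos_add_pi_div_two]
    rw [h3]; exact h2
  have h4 := ((h b).sub (h b')).const_mul c
  have h5 := h4.deriv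
  have h6 : (fun t : ℝ => c * (Real.cos (a * t + b) - Real.cos (a * t + b'))) =
      fun t : ℝ => c * ((fun t : ℝ => Real.cos (a * t + b)) - fun t : ℝ => Real.cos (a * t + b')) t := by
    funext t; simp
  rw [h6, h5]
  ring

theorem md_iter (n : ℕ) : ∀ c a b b' : ℝ, iteratedDeriv n (md c a b b') =
    md (c * a ^ n) a (b + n * (π / 2)) (b' + n * (π / 2)) := by
  induction n with
  | zero => intro c a b b'; simp
  | succ n ih =>
    intro c a b b'
    rw [iteratedDeriv_succ', md_deriv, ih]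
    congr 1
    · ring
    · push_cast; ring
    · push_cast; ring

theorem md_bound (c a b b' t : ℝ) : |md c a b b' t| ≤ |c| * |b - b'| := by
  unfold md
  rw [abs_mul]
  refine mul_le_mul_of_nonneg_left ((cos_lip _ _).trans ?_) (abs_nonneg _)
  rw [add_sub_add_left_eq_sub]

/-- the modes of the cocycle -/
theorem mode_eq (j : ℕ) (c : ℝ) : ∃ δ : ℝ, |δ| ≤ 2 ^ F j * (2 * (1 / 2 ^ F (j + 1))) ∧
    (fun t : ℝ => c * dd 1 j (t : TT)) = md c (2 * π * Q j) (2 * π * δ) 0 := by
  obtain ⟨z, hz⟩ := nearQ j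
  refine ⟨Q j * al - z, hz, ?_⟩
  funext t
  unfold dd md
  congr 1
  rw [nsmul_add_coe, Nat.cast_one, one_mul, ← coe_sub_int ((Q j : ℝ) * al) z, ← AddCircle.coe_nsmul,
    ← AddCircle.coe_add, cc_coe, cc_coe]
  congr 2
  · rw [nsmul_eq_mul]; ring
  · rw [nsmul_eq_mul]; ring

theorem SS_contDiff {y : ℕ → ℝ} (hy : ∀ j, |y j| ≤ 1) :
    ContDiff ℝ ∞ (fun t : ℝ => SS 1 y (t : TT)) := by
  unfold SS
  refine contDiff_tsum_of_eventually (𝕜 := ℝ) (v := fun _ j => (1 / 2 : ℝ) ^ j) (N := ⊤)
    (f := fun (j : ℕ) (t : ℝ) => y j * dd 1 j (t : TT)) ?_ ?_ ?_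
  · intro j
    obtain ⟨δ, -, h⟩ := mode_eq j (y j)
    rw [h]
    exact md_contDiff _ _ _ _
  · intro n _
    exact summ_half
  · intro n _
    rw [Nat.cofinite_eq_atTop]
    filter_upwards [eventually_ge_atTop n] with j hj t
    obtain ⟨δ, hδ, h⟩ := mode_eq j (y j)
    rw [h, norm_iteratedFDeriv_eq_norm_iteratedDeriv, md_iter, Real.norm_eq_abs]
    refine (md_bound _ _ _ _ _).trans ?_
    have h1 := small_mode hj hδ
    refine le_trans ?_ h1
    have hpi := Real.pi_lt_four
    have hpi0 := Real.pi_pos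
    have h2 : |2 * π * δ + n * (π / 2) - (0 + n * (π / 2))| = 2 * π * |δ| := by
      rw [zero_add, add_sub_cancel_right, abs_mul, abs_of_pos (by positivity)]
    rw [h2, abs_mul, abs_pow, abs_of_nonneg (by positivity : 0 ≤ 2 * π * (Q j : ℝ))]
    have h3 : |y j| * (2 * π * (Q j : ℝ)) ^ n ≤ 1 * (8 * (Q j : ℝ)) ^ n := by
      apply mul_le_mul (hy j) _ (by positivity) zero_le_one
      apply pow_le_pow_left₀ (by positivity)
      apply mul_le_mul_of_nonneg_right (by linarith) (by positivity)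
    rw [one_mul] at h3
    apply mul_le_mul h3 _ (by positivity) (by positivity)
    apply mul_le_mul_of_nonneg_right (by linarith) (abs_nonneg _)

end Pool.Agent.V1170.SE
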