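import Mathlib
import Pool.Agent.V1170.SE.Cob
import Pool.Agent.Helper449.RC.Torus2

/-!
# The torus: smooth structure and measure
-/

set_option autoImplicit false

open Set Filter Topology Real MeasureTheory
open scoped Manifold ContDiff
open Pool.Agent.Helper206.Cover (E2)
open Pool.Agent.Helper449.RC

namespace Pool.Agent.V1170.SE

instance : MeasurableSpace T2 := inferInstanceAs (MeasurableSpace (Fin 2 → AddCircle (1 : ℝ)))
instance : BorelSpace T2 := inferInstanceAs (BorelSpace (Fin 2 → AddCircle (1 : ℝ)))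

/-- Lebesgue measure on the torus -/
noncomputable def nu : Measure T2 := (volume : Measure (Fin 2 → AddCircle (1 : ℝ)))

/-- the identification of `T2` with the product of two circles -/
def eqv : T2 ≃ᵐ TT × TT := (MeasurableEquiv.finTwoArrow : (Fin 2 → TT) ≃ᵐ TT × TT)

theorem eqv_apply (p : T2) : eqv p = (p 0, p 1) := rfl

theorem eqv_mp : MeasurePreserving eqv nu volume := volume_preserving_finTwoArrow TT

theorem eqv_symm_apply (w : TT × TT) : eqv.symm w = (![w.1, w.2] : Fin 2 → TT) := rfl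

/-! ### smooth maps -/

theorem lift_smooth {Φ : T2 → T2} {Ψ : E2 → E2} (h : ContDiff ℝ ∞ Ψ)
    (hc : ∀ x, Φ (toT2 x) = toT2 (Ψ x)) : ContMDiff 𝓘(ℝ, E2) 𝓘(ℝ, E2) ∞ Φ := by
  intro p
  have h1 : Φ =ᶠ[𝓝 p] fun q => toT2 (Ψ (extChartAt 𝓘(ℝ, E2) p q)) := by
    filter_upwards [extChartAt_source_mem_nhds (I := 𝓘(ℝ, E2)) p] with q hq
    rw [← hc]
    congr 1
    have h2 := (extChartAt 𝓘(ℝ, E2) p).left_inv hq
    rw [extChartAt_T2_symm] at h2
    exact h2.symm
  refine ContMDiffAt.congr_of_eventuallyEq ?_ h1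
  have h3 : ContMDiffAt 𝓘(ℝ, E2) 𝓘(ℝ, E2) ∞ (extChartAt 𝓘(ℝ, E2) p) p := contMDiffAt_extChartAt
  have h4 : ContMDiff 𝓘(ℝ, E2) 𝓘(ℝ, E2) ∞ fun e : E2 => toT2 (Ψ e) :=
    contMDiff_toT2.comp h.contMDiff
  exact h4.contMDiffAt.comp p h3

/-- the vertical maps -/
noncomputable def vm (g : TT → ℝ) (c : ℝ) (w : TT × TT) : TT × TT :=
  (w.1 + (c : TT), w.2 + ((g w.1 : ℝ) : TT))

/-- the vertical maps on the torus -/
noncomputable def VV (g : TT → ℝ) (c : ℝ) (p : T2) : T2 := eqv.symm (vm g c (eqv p))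

theorem VV_smooth {g : TT → ℝ} (hg : ContDiff ℝ ∞ fun t : ℝ => g (t : TT)) (c : ℝ) :
    ContMDiff 𝓘(ℝ, E2) 𝓘(ℝ, E2) ∞ (VV g c) := by
  let Ψ : E2 → E2 := fun x => WithLp.toLp 2 ![x 0 + c, x 1 + g ((x 0 : ℝ) : TT)]
  have hΨ : ContDiff ℝ ∞ Ψ := by
    rw [contDiff_euclidean]
    have hc : ∀ i : Fin 2, ContDiff ℝ ∞ fun v : E2 => v i := fun i =>
      (EuclideanSpace.proj i : E2 →L[ℝ] ℝ).contDiff
    intro i
    fin_cases i
    · exact (hc 0).add contDiff_const
    · exact (hc 1).add (hg.comp (hc 0))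
  refine lift_smooth hΨ fun x => ?_
  funext i
  fin_cases i
  · show ((x 0 : ℝ) : TT) + (c : TT) = ((x 0 + c : ℝ) : TT)
    rw [AddCircle.coe_add]
  · show ((x 1 : ℝ) : TT) + ((g ((x 0 : ℝ) : TT) : ℝ) : TT) = ((x 1 + g ((x 0 : ℝ) : TT) : ℝ) : TT)
    rw [AddCircle.coe_add]

/-- the diffeomorphism of the torus -/
noncomputable def VD {g : TT → ℝ} (hg : ContDiff ℝ ∞ fun t : ℝ => g (t : TT)) (c : ℝ) :
    Diffeomorph 𝓘(ℝ, E2) 𝓘(ℝ, E2) T2 T2 ∞ where
  toFun := VV g c
  invFun := VV (fun u => - g (u - (c : TT))) (-c)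
  left_inv p := by
    unfold VV
    rw [eqv.apply_symm_apply]
    unfold vm
    simp only
    rw [add_sub_cancel_right, AddCircle.coe_neg, add_neg_cancel_right, AddCircle.coe_neg,
      add_neg_cancel_right]
    exact eqv.symm_apply_apply p
  right_inv p := by
    unfold VV
    rw [eqv.apply_symm_apply]
    unfold vm
    simp only
    rw [AddCircle.coe_neg, neg_add_cancel_right, AddCircle.coe_neg, ← sub_eq_add_neg,
      ← sub_eq_add_neg, sub_add_cancel]
    exact eqv.symm_apply_apply p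
  contMDiff_toFun := VV_smooth hg c
  contMDiff_invFun := by
    apply VV_smooth
    have h1 : (fun t : ℝ => - g ((t : TT) - (c : TT))) = fun t : ℝ => - (fun t : ℝ => g (t : TT)) (t - c) := by
      funext t
      simp only
      rw [AddCircle.coe_sub]
    rw [h1]
    exact (hg.comp (contDiff_id.sub contDiff_const)).neg

theorem VD_apply {g : TT → ℝ} (hg : ContDiff ℝ ∞ fun t : ℝ => g (t : TT)) (c : ℝ) (p : T2) :
    VD hg c p = eqv.symm (vm g c (eqv p)) := rfl

/-! ### the charts preserve the measure -/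

theorem cube_mp (a : E2) :
    MeasurePreserving toT2 (volume.restrict (cubeT2 a).source) nu := by
  have h1 : MeasurePreserving (fun (x : Fin 2 → ℝ) (i : Fin 2) => ((x i : ℝ) : TT))
      (Measure.pi fun i : Fin 2 => (volume.restrict (Ioc (a i - 1 / 2) (a i - 1 / 2 + 1)) : Measure ℝ))
      (Measure.pi fun _ : Fin 2 => (volume : Measure TT)) :=
    measurePreserving_pi _ _ fun i => AddCircle.measurePreserving_mk 1 (a i - 1 / 2)
  have h2 : (Measure.pi fun i : Fin 2 =>
      (volume.restrict (Ioc (a i - 1 / 2) (a i - 1 / 2 + 1)) : Measure ℝ)) =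
      (volume : Measure (Fin 2 → ℝ)).restrict
        (univ.pi fun i => Ioo (a i - 1 / 2) (a i - 1 / 2 + 1)) := by
    rw [volume_pi, Measure.restrict_pi_pi]
    congr 1
    funext i
    exact (Measure.restrict_congr_set Ioo_ae_eq_Ioc).symm
  rw [h2] at h1
  have h3 := (PiLp.volume_preserving_ofLp (Fin 2)).restrict_preimage
    (s := univ.pi fun i => Ioo (a i - 1 / 2) (a i - 1 / 2 + 1))
    (MeasurableSet.univ_pi fun i => measurableSet_Ioo)
  have h4 := h1.comp h3
  have h5 : (WithLp.ofLp ⁻¹' (univ.pi fun i => Ioo (a i - 1 / 2) (a i - 1 / 2 + 1)) : Set E2) =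
      (cubeT2 a).source := by
    rw [cubeT2_source]
    ext x
    simp only [mem_preimage, mem_univ_pi, mem_Ioo]
    rfl
  rw [h5] at h4
  exact h4

theorem chart_measure (a : E2) :
    Measure.map (cubeT2 a).symm (nu.restrict (cubeT2 a).target) =
      volume.restrict (cubeT2 a).source := by
  have hm := cube_mp a
  have ht : MeasurableSet (cubeT2 a).target := (cubeT2 a).open_target.measurableSet
  have hae : AEMeasurable (cubeT2 a).symm (nu.restrict (cubeT2 a).target) :=
    ContinuousOn.aemeasurable (cubeT2 a).continuousOn_symm ht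
  have h1 : nu.restrict (cubeT2 a).target =
      Measure.map toT2 ((volume.restrict (cubeT2 a).source).restrict (toT2 ⁻¹' (cubeT2 a).target)) := by
    rw [← Measure.restrict_map hm.measurable ht, hm.map_eq]
  have h2 : (volume.restrict (cubeT2 a).source).restrict (toT2 ⁻¹' (cubeT2 a).target) =
      volume.restrict (cubeT2 a).source := by
    rw [Measure.restrict_restrict (hm.measurable ht)]
    congr 1
    apply inter_eq_right.2
    intro x hx
    exact (cubeT2 a).map_source hx
  rw [h2] at h1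
  rw [h1] at hae ⊢
  rw [AEMeasurable.map_map_of_aemeasurable hae hm.measurable.aemeasurable]
  have h3 : (cubeT2 a).symm ∘ toT2 =ᵐ[volume.restrict (cubeT2 a).source] id := by
    filter_upwards [ae_restrict_mem (cubeT2 a).open_source.measurableSet] with x hx
    exact (cubeT2 a).left_inv hx
  rw [Measure.map_congr h3, Measure.map_id]

end Pool.Agent.V1170.SE
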