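import Mathlib
import Pool.Agent.V1170.SE.Ni
import Pool.Agent.V1170.SE.Smo
import Pool.Agent.V1170.SE.Tor
import Pool.Agent.V1170.TC.Rig
import Pool.Agent.V1170.TC.Erg

/-!
# The family of ergodic diffeomorphisms of the torus
-/

set_option autoImplicit false

open Set Filter Topology MeasureTheory
open scoped Manifold ContDiff
open Pool.Agent.Helper206.Cover (E2)
open Pool.Agent.Helper449.RC
open Pool.Agent.V1170.TC (cl cl_zero cl_one cl_continuous cl_lip)

namespace Pool.Agent.V1170.SE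

/-- the coefficients: `x`, cut off, at the even places, `1` at the odd places -/
noncomputable def yy (x : ℕ → ℝ) (j : ℕ) : ℝ := if Even j then cl (x (j / 2)) else 1

theorem cl_abs (t : ℝ) : |cl t| ≤ 1 := by
  unfold Pool.Agent.V1170.TC.cl
  rw [abs_of_nonneg (le_max_left _ _)]
  exact max_le zero_le_one (min_le_right _ _)

theorem yy_abs (x : ℕ → ℝ) (j : ℕ) : |yy x j| ≤ 1 := by
  unfold yy
  split_ifs
  · exact cl_abs _
  · simp

theorem yy_even (x : ℕ → ℝ) (n : ℕ) : yy x (2 * n) = cl (x n) := by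
  unfold yy
  rw [if_pos (even_two_mul n), Nat.mul_div_cancel_left _ (by norm_num)]

theorem yy_odd (x : ℕ → ℝ) (n : ℕ) : yy x (2 * n + 1) = 1 := by
  unfold yy
  rw [if_neg (by simp)]

theorem two_mul_tendsto : Tendsto (fun n : ℕ => 2 * n) atTop atTop :=
  tendsto_id.const_mul_atTop' (by norm_num)

theorem yy_freq (x : ℕ → ℝ) : ∃ᶠ k in atTop, yy x k = 1 := by
  rw [frequently_atTop]
  intro a
  exact ⟨2 * a + 1, by omega, yy_odd x a⟩

theorem yy_pair {x y : ℕ → ℝ} (h : ∃ᶠ n in atTop, x n ≤ 0 ∧ cl (y n) = 1) :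
    ∃ᶠ k in atTop, yy x k = 0 ∧ yy y k = 1 := by
  apply two_mul_tendsto.frequently
  refine h.mono fun n hn => ?_
  rw [yy_even, yy_even]
  exact ⟨cl_zero hn.1, hn.2⟩

theorem yy_summable {x x' : ℕ → ℝ} (h : Summable fun n => |x n - x' n|) :
    Summable fun j => |yy x' j - yy x j| := by
  have hinj : Function.Injective fun n : ℕ => 2 * n := fun a b hab => by
    simp only at hab; omega
  rw [← hinj.summable_iff]
  · refine Summable.of_nonneg_of_le (fun n => abs_nonneg _) (fun n => ?_) h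
    show |yy x' (2 * n) - yy x (2 * n)| ≤ _
    rw [yy_even, yy_even, abs_sub_comm (x n)]
    exact cl_lip _ _
  · intro j hj
    have : ¬ Even j := by
      rintro ⟨m, hm⟩
      exact hj ⟨m, by simp only; omega⟩
    unfold yy
    rw [if_neg this, if_neg this, sub_self, abs_zero]

theorem yy_continuous (j : ℕ) : Continuous fun x : ℕ → ℝ => yy x j := by
  unfold yy
  split_ifs
  · exact cl_continuous.comp (continuous_apply _)
  · exact continuous_const

theorem SS_yy_continuous (u : TT) : Continuous fun x : ℕ → ℝ => SS 1 (yy x) u := by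
  unfold SS
  refine continuous_tsum (fun j => (yy_continuous j).mul continuous_const)
    (summ_half.mul_left ((1 : ℕ) : ℝ)) (fun j x => term_le (yy_abs x) 1 j u)

/-- the diffeomorphism attached to `x` -/
noncomputable def TD (x : ℕ → ℝ) : Diffeomorph 𝓘(ℝ, E2) 𝓘(ℝ, E2) T2 T2 ∞ :=
  VD (SS_contDiff (yy_abs x)) al

theorem TD_apply (x : ℕ → ℝ) (p : T2) : TD x p = eqv.symm (sk (yy x) (eqv p)) := rfl

theorem TD_ergodic (x : ℕ → ℝ) : Ergodic (TD x) nu := by
  have h := (eqv_mp.symm eqv).ergodic_conjugate_iff.2 (sk_ergodic (yy_abs x) (yy_freq x))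
  exact h

theorem TD_meas (p : T2) : Measurable fun x : ℕ → ℝ => TD x p := by
  have h : Continuous fun x : ℕ → ℝ => sk (yy x) (eqv p) := by
    unfold sk
    exact continuous_const.prodMk (continuous_const.add
      ((AddCircle.continuous_mk' 1).comp (SS_yy_continuous _)))
  exact eqv.symm.measurable.comp h.measurable

theorem cj_continuous {z : ℕ → ℝ} (hz : Summable fun j => |z j|) :
    Continuous fun u : TT => ((HH z u : ℝ) : TT) :=
  (AddCircle.continuous_mk' 1).comp (HH_continuous hz)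

theorem cj_mp {z : ℕ → ℝ} (hz : Summable fun j => |z j|) : MeasurePreserving (cj z) volume volume := by
  have h := vert_mp (cj_continuous hz) 0
  have h2 : (fun w : TT × TT => (w.1 + 0, w.2 + ((HH z w.1 : ℝ) : TT))) = cj z := by
    funext w
    unfold cj
    rw [add_zero]
  rw [h2] at h
  exact h

/-- `ℓ¹`-equivalent sequences have isomorphic transformations -/
theorem TD_iso {x x' : ℕ → ℝ} (h : Summable fun n => |x n - x' n|) :
    ∃ φ ψ : T2 → T2, MeasurePreserving φ nu nu ∧ MeasurePreserving ψ nu nu ∧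
      ψ ∘ φ =ᵐ[nu] id ∧ φ ∘ ψ =ᵐ[nu] id ∧ φ ∘ (TD x) =ᵐ[nu] (TD x') ∘ φ := by
  have hz := yy_summable h
  set z : ℕ → ℝ := fun j => yy x' j - yy x j with hzd
  have hz' : Summable fun j => |-z j| := by simpa using hz
  refine ⟨fun p => eqv.symm (cj z (eqv p)), fun p => eqv.symm (cj (fun j => -z j) (eqv p)),
    ((eqv_mp.symm eqv).comp (cj_mp hz)).comp eqv_mp,
    ((eqv_mp.symm eqv).comp (cj_mp hz')).comp eqv_mp, ?_, ?_, ?_⟩
  · refine ae_of_all _ fun p => ?_
    simp only [Function.comp, eqv.apply_symm_apply]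
    rw [cj_neg, eqv.symm_apply_apply]
    rfl
  · refine ae_of_all _ fun p => ?_
    simp only [Function.comp, eqv.apply_symm_apply]
    have h2 := cj_neg (fun j => -z j) (eqv p)
    simp only [neg_neg] at h2
    rw [show (fun j => z j) = z from rfl] at h2
    rw [h2, eqv.symm_apply_apply]
    rfl
  · refine ae_of_all _ fun p => ?_
    simp only [Function.comp, TD_apply, eqv.apply_symm_apply]
    rw [hzd, cj_sk (yy_abs x) (yy_abs x') hz]

/-- generic sequences do not -/
theorem TD_not_iso {x y : ℕ → ℝ} (h : ∃ᶠ n in atTop, x n ≤ 0 ∧ cl (y n) = 1)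
    {φ : T2 → T2} (hφ : MeasurePreserving φ nu nu) (hc : φ ∘ (TD x) =ᵐ[nu] (TD y) ∘ φ) : False := by
  have hφ' : MeasurePreserving (fun w => eqv (φ (eqv.symm w))) volume volume :=
    (eqv_mp.comp hφ).comp (eqv_mp.symm eqv)
  refine not_iso (yy_abs x) (yy_abs y) (yy_pair h) hφ' ?_
  have h1 := (eqv_mp.symm eqv).quasiMeasurePreserving.ae hc
  filter_upwards [h1] with w hw
  simp only [Function.comp, TD_apply, eqv.apply_symm_apply] at hw
  rw [hw, eqv.apply_symm_apply]

/-! ### the action of `S_∞` on binary relations -/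

/-- the action of `S_∞` on binary relations -/
@[reducible] def permAct : MulAction (Equiv.Perm ℕ) (ℕ → ℕ → Bool) where
  smul g G i j := G (g.symm i) (g.symm j)
  one_smul _ := rfl
  mul_smul _ _ _ := rfl

theorem permAct_meas :
    @Measurable (Equiv.Perm ℕ × (ℕ → ℕ → Bool)) (ℕ → ℕ → Bool)
      (Pool.Agent.H468R2.KA.permMS.prod inferInstance) _
      (fun p i j => p.2 (p.1.symm i) (p.1.symm j)) := by
  let _ : MeasurableSpace (Equiv.Perm ℕ) := Pool.Agent.H468R2.KA.permMS
  refine measurable_pi_iff.2 fun i => measurable_pi_iff.2 fun j => ?_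
  show Measurable (fun p : Equiv.Perm ℕ × (ℕ → ℕ → Bool) => p.2 (p.1.symm i) (p.1.symm j))
  refine measurable_to_bool ?_
  have h : (fun p : Equiv.Perm ℕ × (ℕ → ℕ → Bool) => p.2 (p.1.symm i) (p.1.symm j)) ⁻¹' {true} =
      ⋃ a : ℕ, ⋃ b : ℕ, {p | p.1 a = i} ∩ {p | p.1 b = j} ∩ {p | p.2 a b = true} := by
    ext p
    simp only [mem_preimage, mem_singleton_iff, mem_iUnion, mem_inter_iff, mem_ofPred_eq]
    constructor
    · intro hp
      exact ⟨p.1.symm i, p.1.symm j, ⟨p.1.apply_symm_apply i, p.1.apply_symm_apply j⟩, hp⟩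
    · rintro ⟨a, b, ⟨h1, h2⟩, h3⟩
      rw [← h1, ← h2, p.1.symm_apply_apply, p.1.symm_apply_apply]
      exact h3
  rw [h]
  refine MeasurableSet.iUnion fun a => MeasurableSet.iUnion fun b => ?_
  have h1 : ∀ a i : ℕ, MeasurableSet {p : Equiv.Perm ℕ × (ℕ → ℕ → Bool) | p.1 a = i} := by
    intro a i
    have h0 : MeasurableSet {g : Equiv.Perm ℕ | g a = i} :=
      MeasurableSpace.measurableSet_generateFrom ⟨a, i, rfl⟩
    exact measurable_fst h0
  have h2 : MeasurableSet {p : Equiv.Perm ℕ × (ℕ → ℕ → Bool) | p.2 a b = true} := by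
    have : Measurable fun p : Equiv.Perm ℕ × (ℕ → ℕ → Bool) => p.2 a b :=
      (measurable_pi_apply b).comp ((measurable_pi_apply a).comp measurable_snd)
    exact this (measurableSet_singleton true)
  exact ((h1 a i).inter (h1 b j)).inter h2

/-- the abstract statement: no Borel reduction to isomorphism of binary relations -/
theorem no_red (f : (ℕ → ℝ) → (ℕ → ℕ → Bool)) (hf : Measurable f)
    (h : ∀ x y, (∃ φ ψ : T2 → T2, MeasurePreserving φ nu nu ∧ MeasurePreserving ψ nu nu ∧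
      ψ ∘ φ =ᵐ[nu] id ∧ φ ∘ ψ =ᵐ[nu] id ∧ φ ∘ (TD x) =ᵐ[nu] (TD y) ∘ φ) ↔
      ∃ σ : Equiv.Perm ℕ, ∀ i j : ℕ, f x i j = f y (σ i) (σ j)) : False := by
  let _ := permAct
  have key : ∀ x y : ℕ → ℝ, (∃ g : Equiv.Perm ℕ, g • f x = f y) ↔
      ∃ σ : Equiv.Perm ℕ, ∀ i j : ℕ, f x i j = f y (σ i) (σ j) := by
    intro x y
    constructor
    · rintro ⟨g, hg⟩
      refine ⟨g, fun i j => ?_⟩
      rw [← hg]
      show f x i j = f x (g.symm (g i)) (g.symm (g j))
      rw [g.symm_apply_apply, g.symm_apply_apply]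
    · rintro ⟨σ, hσ⟩
      refine ⟨σ, ?_⟩
      funext i j
      show f x (σ.symm i) (σ.symm j) = f y i j
      rw [hσ, σ.apply_symm_apply, σ.apply_symm_apply]
  obtain ⟨C, hC, hCC⟩ := Pool.Agent.V1170.TC.f_perm (ℕ → ℕ → Bool) permAct_meas f hf
    (fun x y hxy => (key x y).2 ((h x y).1 (TD_iso hxy)))
  obtain ⟨x, hx, y, hy, -, h1⟩ := Pool.Agent.V1170.TC.gen_pair hC
  obtain ⟨φ, ψ, hφ, -, -, -, hc⟩ := (h x y).2 ((key x y).1 (hCC x hx y hy))
  exact TD_not_iso h1 hφ hc

end Pool.Agent.V1170.SE
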